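import Pool.Agent.Lib.TGB_h61.DescY
import Pool.Agent.Lib.TGB_h34.Fr0

/-!
# TANK G, limit level, row (3.4b) for the plain frames `IsFr`
-/

set_option autoImplicit false

namespace Pool.Agent.TGB61

open Pool.Agent.TAO (OVal VPos val_add_vpos Ctx0)
open Pool.Agent.ALLO (locv icl ICl)
open Pool.Agent.LU1 (FracIs fixO mem_fixO)
open Pool.Agent.ALLZO
open Pool.Agent.TGBh34 (IsFr MM0)

universe u w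

variable {k Ω : Type u} [Field k] [Field Ω] [Algebra k Ω] {𝕂 : Type w} [Field 𝕂] [LinearOrder 𝕂]
  [IsStrictOrderedRing 𝕂] {v : OVal 𝕂 Ω} {nn : ℕ} {D : ℕ}

theorem PF.isFr {Γ : AddSubgroup 𝕂} {χ : 𝕂 → Ω} {y : Fin D → Ω} {R : Subalgebra k Ω}
    (h : PF v Γ χ y R) : IsFr v Γ χ y R :=
  { mon := ⟨h.χ_ne, h.χ_add, h.χ_val⟩
    y_ne := h.y_ne
    y_pos := h.y_pos
    nonneg := h.nonneg
    loc := h.loc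
    χ_mem := h.χ_mem
    y_mem := h.y_mem
    fg := h.fg
    fgen := h.fgen
    gen := h.gen }

theorem PF.of_isFr {Γ : AddSubgroup 𝕂} {χ : 𝕂 → Ω} {y : Fin D → Ω} {R : Subalgebra k Ω}
    (h : IsFr v Γ χ y R) : PF v Γ χ y R :=
  ⟨h.fg, h.mon.ne, h.mon.add, h.mon.val, h.y_ne, h.y_pos, h.nonneg, h.loc, h.χ_mem, h.y_mem,
    h.fgen, h.gen⟩

variable {R : Subalgebra k Ω} {F : IntermediateField k Ω} {N : IntermediateField F Ω}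

/-- Row (3.4b): descent of a frame ring from `A₂ = CN ⊓ K₂` to `C = AH v R H`; `M` is a group of
base monomials. -/
theorem descendFr (h : Ctx0 k v nn) [FiniteDimensional F N] (hR : NRing v F R)
    (H : Subgroup (N ≃ₐ[F] N)) {Γ : AddSubgroup 𝕂} {χ₂ : 𝕂 → Ω} {y₂ : Fin D → Ω}
    (hP : IsFr v Γ χ₂ y₂ (AH v R (DP v R N hR.frac.1 ⊓ H)))
    (M : Set Ω) (hMF : ∀ m ∈ M, m ∈ F)
    (hM0 : ∀ m ∈ M, m ≠ 0) (hM1 : 1 ∈ M) (hMm : ∀ m ∈ M, ∀ m' ∈ M, m * m' ∈ M)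
    (hMi : ∀ m ∈ M, m⁻¹ ∈ M)
    (w : OVal 𝕂 Ω) (hwχ : ∀ γ ∈ Γ, w (χ₂ γ) = γ)
    (hwA : ∀ f ∈ AH v R (DP v R N hR.frac.1 ⊓ H), w.Ge 0 f)
    (hcut : ∀ b ∈ fixO F N (DP v R N hR.frac.1 ⊓ H),
      (∃ m ∈ M, m * b ∈ AH v R (DP v R N hR.frac.1 ⊓ H)) →
      w.Ge 0 b → b ∈ AH v R (DP v R N hR.frac.1 ⊓ H))
    (hden : ∀ γ ∈ Γ, ∃ m ∈ M, m * χ₂ γ ∈ AH v R (DP v R N hR.frac.1 ⊓ H))
    (htor : ∀ γ ∈ Γ, ∃ e : ℕ, 0 < e ∧ ∃ m ∈ M, (e : 𝕂) * γ = w m) :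
    ∃ (χ : 𝕂 → Ω) (y : Fin D → Ω), IsFr v Γ χ y (AH v R H) ∧
      (∀ γ ∈ Γ, χ γ ∈ fixO F N H) ∧
      (∀ γ ∈ Γ, χ γ / χ₂ γ ∈ AH v R (DP v R N hR.frac.1 ⊓ H) ∧
        χ₂ γ / χ γ ∈ AH v R (DP v R N hR.frac.1 ⊓ H)) ∧
      ∀ f ∈ AH v R (DP v R N hR.frac.1 ⊓ H), VPos v f →
        MM0 Γ χ₂ y (AH v R (DP v R N hR.frac.1 ⊓ H)) f := by
  obtain ⟨χ, y, hyA, h1, h2, h3, -, h5⟩ := descendY h hR H (PF.of_isFr hP) (fun f => Iff.rfl)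
    M hMF hM0 hM1 hMm hMi w hwχ hwA hcut hden htor
  have h6 : AH v R H = ICl v R (fixO F N H) := by
    ext a
    exact (mem_ICl_fixO h hR H).symm
  rw [h6]
  exact ⟨χ, y, h1.isFr, h2, h3, h5⟩

/-- The case `H = ⊤`: descent to `F`. -/
theorem descendTop (h : Ctx0 k v nn) [FiniteDimensional F N] [IsGalois F N] (hR : NRing v F R)
    {Γ : AddSubgroup 𝕂} {χ₂ : 𝕂 → Ω} {y₂ : Fin D → Ω}
    (hP : IsFr v Γ χ₂ y₂ (RD v R N hR.frac.1))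
    (M : Set Ω) (hMF : ∀ m ∈ M, m ∈ F)
    (hM0 : ∀ m ∈ M, m ≠ 0) (hM1 : 1 ∈ M) (hMm : ∀ m ∈ M, ∀ m' ∈ M, m * m' ∈ M)
    (hMi : ∀ m ∈ M, m⁻¹ ∈ M)
    (w : OVal 𝕂 Ω) (hwχ : ∀ γ ∈ Γ, w (χ₂ γ) = γ)
    (hwA : ∀ f ∈ RD v R N hR.frac.1, w.Ge 0 f)
    (hcut : ∀ b ∈ FD v R N hR.frac.1,
      (∃ m ∈ M, m * b ∈ RD v R N hR.frac.1) → w.Ge 0 b → b ∈ RD v R N hR.frac.1)
    (hden : ∀ γ ∈ Γ, ∃ m ∈ M, m * χ₂ γ ∈ RD v R N hR.frac.1)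
    (htor : ∀ γ ∈ Γ, ∃ e : ℕ, 0 < e ∧ ∃ m ∈ M, (e : 𝕂) * γ = w m) :
    ∃ (χ : 𝕂 → Ω) (y : Fin D → Ω), IsFr v Γ χ y R ∧
      (∀ γ ∈ Γ, χ γ ∈ F) ∧
      (∀ γ ∈ Γ, χ γ / χ₂ γ ∈ RD v R N hR.frac.1 ∧ χ₂ γ / χ γ ∈ RD v R N hR.frac.1) ∧
      ∀ f ∈ RD v R N hR.frac.1, VPos v f → MM0 Γ χ₂ y (RD v R N hR.frac.1) f := by
  have e1 : DP v R N hR.frac.1 ⊓ ⊤ = DP v R N hR.frac.1 := inf_top_eq _
  have e2 : AH v R (DP v R N hR.frac.1 ⊓ ⊤) = RD v R N hR.frac.1 := by rw [e1]; rfl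
  have e3 : fixO F N (DP v R N hR.frac.1 ⊓ ⊤) = FD v R N hR.frac.1 := by rw [e1]; rfl
  have e4 : fixO F N (⊤ : Subgroup (N ≃ₐ[F] N)) = F := by
    ext a
    rw [mem_fixO]
    constructor
    · rintro ⟨n, rfl, hn⟩
      obtain ⟨f, hf⟩ := (IsGalois.mem_bot_iff_fixed (F := F) (E := N) n).2
        fun σ => hn σ (Subgroup.mem_top σ)
      rw [← hf]
      exact f.2
    · intro ha
      exact ⟨algebraMap F N ⟨a, ha⟩, rfl, fun σ _ => σ.commutes _⟩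
  have e5 : AH v R (⊤ : Subgroup (N ≃ₐ[F] N)) = R := by
    ext a
    have h1 := mem_ICl_fixO h hR (⊤ : Subgroup (N ≃ₐ[F] N)) (a := a)
    rw [e4, mem_ICl_base hR] at h1
    rw [h1, mem_AH, e4]
  obtain ⟨χ, y, h1, h2, h3, h4⟩ := descendFr h hR ⊤ (by rw [e2]; exact hP) M hMF hM0 hM1 hMm hMi
    w hwχ (by rw [e2]; exact hwA) (by rw [e2, e3]; exact hcut) (by rw [e2]; exact hden) htor
  rw [e2] at h3 h4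
  rw [e5] at h1
  rw [e4] at h2
  exact ⟨χ, y, h1, h2, h3, h4⟩

end Pool.Agent.TGB61
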