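import Pool.Agent.Lib.ALLZO.DescFrame
import Pool.Agent.Lib.ALLZO.L1

/-!
# TANK G, limit level, row (3.4b): descent of a frame ring from `A₂` to `C`, general base

`F` with a normal ring `R` (no frame of `F` is needed), `M` a group of base monomials, `N / F`
finite Galois, `A₂ = CN ⊓ K₂`, `K₂ = fixO F N (DP ⊓ H)`, a frame ring with data `Γ, χ₂, y₂`, `w` its
content valuation.  Then `C = CN ⊓ fixO F N H` is a frame ring with the same `Γ`.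
-/

set_option autoImplicit false

open Polynomial

namespace Pool.Agent.TGB61

open Pool.Agent.TAO (OVal VPos val_add_vpos Ctx0)
open Pool.Agent.ALLO (locv icl ICl)
open Pool.Agent.LU1 (FracIs fixO mem_fixO)
open Pool.Agent.ALLZO
open Pool.Agent.ALL61O (DS Lc)

universe u w

section PF

variable {k Ω : Type u} [Field k] [Field Ω] [Algebra k Ω] {𝕂 : Type w} [Field 𝕂] [LinearOrder 𝕂]
  [IsStrictOrderedRing 𝕂]

/-- The generation of the maximal ideal. -/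
def Gen (v : OVal 𝕂 Ω) {D : ℕ} (Γ : AddSubgroup 𝕂) (χ : 𝕂 → Ω) (y : Fin D → Ω)
    (R : Subalgebra k Ω) : Prop :=
  ∀ f ∈ R, VPos v f → ∃ γ ∈ Γ, ∃ a ∈ R, (0 < γ ∨ a = 0) ∧ ∃ b : Fin D → Ω, (∀ i, b i ∈ R) ∧
    f = χ γ * a + ∑ i, y i * b i

/-- Plain frame data `Γ`, `χ`, `y`, `R`. -/
structure PF (v : OVal 𝕂 Ω) {D : ℕ} (Γ : AddSubgroup 𝕂) (χ : 𝕂 → Ω) (y : Fin D → Ω)
    (R : Subalgebra k Ω) : Prop where
  fg : Γ.FG
  χ_ne : ∀ γ ∈ Γ, χ γ ≠ 0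
  χ_add : ∀ γ ∈ Γ, ∀ δ ∈ Γ, χ (γ + δ) = χ γ * χ δ
  χ_val : ∀ γ ∈ Γ, v (χ γ) = γ
  y_ne : ∀ i, y i ≠ 0
  y_pos : ∀ i, 0 < v (y i)
  nonneg : ∀ f ∈ R, v.Ge 0 f
  loc : ∀ f ∈ R, f ≠ 0 → v f = 0 → f⁻¹ ∈ R
  χ_mem : ∀ γ ∈ Γ, 0 ≤ γ → χ γ ∈ R
  y_mem : ∀ i, y i ∈ R
  fgen : ∃ T : Finset Ω, R = locv v (Algebra.adjoin k ((T : Set Ω) ∪ χ '' {γ | γ ∈ Γ ∧ 0 ≤ γ}))
  gen : Gen v Γ χ y R

variable {v : OVal 𝕂 Ω} {D : ℕ} {Γ : AddSubgroup 𝕂} {χ : 𝕂 → Ω} {y : Fin D → Ω}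
  {R : Subalgebra k Ω}

theorem PF.χ_zero (h : PF v Γ χ y R) : χ 0 = 1 := by
  have h1 := h.χ_add 0 Γ.zero_mem 0 Γ.zero_mem
  rw [add_zero] at h1
  exact (mul_right_cancel₀ (h.χ_ne 0 Γ.zero_mem) (by rw [one_mul]; exact h1)).symm

theorem PF.χ_neg (h : PF v Γ χ y R) {γ : 𝕂} (hγ : γ ∈ Γ) : χ (-γ) = (χ γ)⁻¹ := by
  have h1 := h.χ_add γ hγ (-γ) (Γ.neg_mem hγ)
  rw [add_neg_cancel, h.χ_zero] at h1
  exact eq_inv_of_mul_eq_one_right h1.symm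

/-- The elements of positive value, as an ideal of `R`. -/
def mI (v : OVal 𝕂 Ω) (R : Subalgebra k Ω) (h0 : ∀ f ∈ R, v.Ge 0 f) : Ideal R where
  carrier := {a | VPos v (a : Ω)}
  add_mem' := fun ha hb => by
    change VPos v ((_ : R) : Ω)
    rw [Subalgebra.coe_add]
    exact ha.add hb
  zero_mem' := fun h => absurd rfl h
  smul_mem' := fun c a ha => by
    change VPos v ((c • a : R) : Ω)
    rw [smul_eq_mul, Subalgebra.coe_mul]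
    exact VPos.mul' (h0 _ c.2) ha

/-- The multiples of the `χ γ`, `γ > 0`. -/
def hI (h : PF v Γ χ y R) : Ideal R where
  carrier := {a | ∃ γ ∈ Γ, ∃ b ∈ R, (0 < γ ∨ b = 0) ∧ (a : Ω) = χ γ * b}
  add_mem' := by
    rintro a a' ⟨γ, hγ, b, hb, h1, h2⟩ ⟨γ', hγ', b', hb', h1', h2'⟩
    -- the smaller exponent
    have key : ∀ γ ∈ Γ, ∀ δ ∈ Γ, γ ≤ δ → χ δ = χ γ * χ (δ - γ) ∧ χ (δ - γ) ∈ R := by
      intro γ hγ δ hδ hle
      have h3 : δ - γ ∈ Γ := Γ.sub_mem hδ hγ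
      refine ⟨?_, h.χ_mem _ h3 (by linarith)⟩
      rw [← h.χ_add γ hγ _ h3]
      congr 1
      ring
    rcases h1 with h1 | h1
    · rcases h1' with h1' | h1'
      · rcases le_total γ γ' with hle | hle
        · obtain ⟨e1, e2⟩ := key γ hγ γ' hγ' hle
          refine ⟨γ, hγ, b + χ (γ' - γ) * b', R.add_mem hb (R.mul_mem e2 hb'), Or.inl h1, ?_⟩
          rw [Subalgebra.coe_add, h2, h2', e1]
          ring
        · obtain ⟨e1, e2⟩ := key γ' hγ' γ hγ hle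
          refine ⟨γ', hγ', b' + χ (γ - γ') * b, R.add_mem hb' (R.mul_mem e2 hb), Or.inl h1', ?_⟩
          rw [Subalgebra.coe_add, h2, h2', e1]
          ring
      · refine ⟨γ, hγ, b, hb, Or.inl h1, ?_⟩
        rw [Subalgebra.coe_add, h2, h2', h1', mul_zero, add_zero]
    · refine ⟨γ', hγ', b', hb', h1', ?_⟩
      rw [Subalgebra.coe_add, h2, h2', h1, mul_zero, zero_add]
  zero_mem' := ⟨0, Γ.zero_mem, 0, R.zero_mem, Or.inr rfl, by simp⟩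
  smul_mem' := by
    rintro c a ⟨γ, hγ, b, hb, h1, h2⟩
    refine ⟨γ, hγ, c * b, R.mul_mem c.2 hb, ?_, ?_⟩
    · rcases h1 with h1 | h1
      · exact Or.inl h1
      · right; rw [h1, mul_zero]
    · rw [smul_eq_mul, Subalgebra.coe_mul, h2]
      ring

theorem mem_hI (h : PF v Γ χ y R) {a : R} :
    a ∈ hI h ↔ ∃ γ ∈ Γ, ∃ b ∈ R, (0 < γ ∨ b = 0) ∧ (a : Ω) = χ γ * b := Iff.rfl

/-- `m_R` is in the Jacobson radical. -/
theorem mI_le (h : PF v Γ χ y R) : mI v R h.nonneg ≤ Ideal.jacobson ⊥ := by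
  intro a ha
  rw [Ideal.mem_jacobson_bot]
  intro b
  have h1 : VPos v ((a : Ω) * (b : Ω)) := VPos.mul ha (h.nonneg _ b.2)
  obtain ⟨h2, h3⟩ := val_add_vpos (v := v) one_ne_zero v.map_one h1
  have h4 : ((a * b + 1 : R) : Ω) = 1 + (a : Ω) * (b : Ω) := by
    rw [Subalgebra.coe_add, Subalgebra.coe_mul, Subalgebra.coe_one, add_comm]
  rw [← h4] at h2 h3
  refine IsUnit.of_mul_eq_one ⟨_, h.loc _ (a * b + 1 : R).2 h2 h3⟩ ?_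
  apply Subtype.ext
  rw [Subalgebra.coe_mul, Subalgebra.coe_one]
  exact mul_inv_cancel₀ h2

/-- Nakayama: the parameters `y` may be changed modulo `m_R²`. -/
theorem PF.gen_of_sq (h : PF v Γ χ y R) (y' : Fin D → Ω) (hy' : ∀ i, y' i ∈ R)
    (hsq : ∀ i, (⟨y i, h.y_mem i⟩ - ⟨y' i, hy' i⟩ : R) ∈ mI v R h.nonneg ^ 2) :
    Gen v Γ χ y' R := by
  classical
  set m := mI v R h.nonneg with hm
  let Y : Fin D → R := fun i => ⟨y i, h.y_mem i⟩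
  let Y' : Fin D → R := fun i => ⟨y' i, hy' i⟩
  set N' : Ideal R := Ideal.span (Set.range Y) with hN'
  set N : Ideal R := hI h ⊔ Ideal.span (Set.range Y') with hN
  have h1 : m ≤ hI h ⊔ N' := by
    intro a ha
    obtain ⟨γ, hγ, b, hb, hγb, c, hc, hac⟩ := h.gen a a.2 ha
    have h2 : a = (a - ∑ i, Y i * ⟨c i, hc i⟩) + ∑ i, Y i * ⟨c i, hc i⟩ := by ring
    rw [h2]
    refine Ideal.add_mem _ (Ideal.mem_sup_left ?_) (Ideal.mem_sup_right ?_)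
    · refine ⟨γ, hγ, b, hb, hγb, ?_⟩
      rw [Subalgebra.coe_sub, hac]
      push_cast
      ring
    · exact Ideal.sum_mem _ fun i _ => Ideal.mul_mem_right _ _ (Ideal.subset_span ⟨i, rfl⟩)
  have h2 : m * m ≤ hI h ⊔ m * N' := by
    calc m * m ≤ m * (hI h ⊔ N') := Ideal.mul_mono_right h1
      _ = m * hI h ⊔ m * N' := Ideal.mul_sup _ _ _
      _ ≤ hI h ⊔ m * N' := sup_le_sup_right Ideal.mul_le_right _
  have h3 : N' ≤ N ⊔ m • N' := by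
    rw [hN', Ideal.span_le]
    rintro _ ⟨i, rfl⟩
    have h4 : Y i = (Y i - Y' i) + Y' i := by ring
    rw [h4]
    refine Submodule.add_mem _ ?_ ?_
    · have h5 : Y i - Y' i ∈ m * m := by rw [← pow_two]; exact hsq i
      have h6 := h2 h5
      have h7 : hI h ⊔ m * N' ≤ N ⊔ m • N' := sup_le_sup_right le_sup_left _
      exact h7 h6
    · exact Submodule.mem_sup_left (Ideal.mem_sup_right (Ideal.subset_span ⟨i, rfl⟩))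
  have h4 : N' ≤ N := Submodule.le_of_le_smul_of_le_jacobson_bot
    (Submodule.fg_span (Set.finite_range Y)) (mI_le h) h3
  intro f hf hv
  have h5 : (⟨f, hf⟩ : R) ∈ N := by
    have h6 : hI h ⊔ N' ≤ N := sup_le le_sup_left h4
    exact h6 (h1 (show (⟨f, hf⟩ : R) ∈ m from hv))
  obtain ⟨a, ⟨γ, hγ, b, hb, hγb, hab⟩, c, hc, hac⟩ := Submodule.mem_sup.1 h5
  rw [Ideal.mem_span_range_iff_exists_fun] at hc
  obtain ⟨d, hd⟩ := hc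
  refine ⟨γ, hγ, b, hb, hγb, fun i => (d i : Ω), fun i => (d i).2, ?_⟩
  have h6 := congrArg (fun z : R => (z : Ω)) hac
  simp only at h6
  rw [← h6, Subalgebra.coe_add, hab, ← hd]
  push_cast
  congr 1
  exact Finset.sum_congr rfl fun i _ => mul_comm _ _

end PF

section Descent

variable {k Ω : Type u} [Field k] [Field Ω] [Algebra k Ω] {𝕂 : Type w} [Field 𝕂] [LinearOrder 𝕂]
  [IsStrictOrderedRing 𝕂] {v : OVal 𝕂 Ω} {nn : ℕ} {D : ℕ}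
variable {R : Subalgebra k Ω} {F : IntermediateField k Ω} {N : IntermediateField F Ω}

theorem ds_instM [FiniteDimensional F N] (hR : NRing v F R) (H : Subgroup (N ≃ₐ[F] N)) {θ : N}
    (hθ : IsTheta v R N hR.frac.1 θ) {w : OVal 𝕂 Ω} (hwR : ∀ f ∈ R, w.Ge 0 f)
    (hwRD : ∀ f ∈ RD v R N hR.frac.1, w.Ge 0 f) (M : Set Ω) (hMF : ∀ m ∈ M, m ∈ F)
    (hM0 : ∀ m ∈ M, m ≠ 0) (hM1 : 1 ∈ M) (hMm : ∀ m ∈ M, ∀ m' ∈ M, m * m' ∈ M)
    (hMi : ∀ m ∈ M, m⁻¹ ∈ M) :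
    DS H (DP v R N hR.frac.1) (intS R N) (resN v N) (resN w N) θ {n : N | (n : Ω) ∈ M} := by
  refine ⟨fun σ a ha => int_map hR.frac.1 σ ha, fun a ha => resN_ge.2 (int_ge hR.nonneg ha),
    fun a ha => resN_ge.2 (int_ge hwR ha), fun σ hσ a ha h => resN_vpos.2 ((hσ a ha).1
      (resN_vpos.1 h)), fun a ha h => ?_, hθ.int, hθ.fix, coe_ne.1 hθ.val.1, hθ.val.2,
    fun σ hσ => resN_vpos.2 (hθ.mov σ hσ), fun g hg => coe_ne.1 (hM0 _ hg), ?_, ?_, ?_, ?_⟩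
  · rw [resN_vpos] at h ⊢
    by_contra hcon
    obtain ⟨h1, h2⟩ := val_eq_zero hR.nonneg ha hcon
    have h3 := h h1
    rw [w_unit hR hwR hwRD ha h1 h2] at h3
    exact lt_irrefl _ h3
  · intro g hg σ
    have h1 : g = algebraMap F N ⟨(g : Ω), hMF _ hg⟩ := Subtype.ext rfl
    rw [h1, AlgEquiv.commutes]
  · exact hM1
  · intro g hg g' hg'
    change ((g * g' : N) : Ω) ∈ M
    rw [MulMemClass.coe_mul]
    exact hMm _ hg _ hg'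
  · intro g hg
    change ((g⁻¹ : N) : Ω) ∈ M
    push_cast
    exact hMi _ hg

/-- `θ - 1` is in `m_C A₂`. -/
theorem sub_one_H [FiniteDimensional F N] (hR : NRing v F R) {θ : N}
    (hθ : IsTheta v R N hR.frac.1 θ) (H : Subgroup (N ≃ₐ[F] N)) {A₂ : Subalgebra k Ω}
    (hA : ∀ f, f ∈ A₂ ↔ f ∈ CN v R N ∧ f ∈ fixO F N (DP v R N hR.frac.1 ⊓ H)) :
    ∃ r ∈ ICl v R (fixO F N H), VPos v r ∧ ∃ b ∈ A₂, (θ : Ω) - 1 = r * b := by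
  classical
  have hf1 : (fH θ H).eval 1 = (1 - θ) * IsTheta.du1 θ H := by
    rw [fH, eval_prod, ← Finset.mul_prod_erase _ _ (IsTheta.self_mem_orb (θ := θ) H)]
    unfold IsTheta.du1
    congr 1
    · simp
    · refine Finset.prod_congr rfl fun t _ => ?_
      simp
  have hr : (((fH θ H).eval 1 : N) : Ω) ∈ ICl v R (fixO F N H) := by
    rw [eval_eq_sum_range]
    push_cast
    refine sum_mem fun i _ => ?_
    rw [one_pow, mul_one]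
    exact le_locv _ (coeff_mem_icl (fH_PI hθ H) (fun σ hσ => fH_map θ H hσ) i)
  have hv : VPos v (((fH θ H).eval 1 : N) : Ω) := by
    rw [hf1, MulMemClass.coe_mul]
    refine VPos.mul ?_ (int_ge hR.nonneg (hθ.du1_int H))
    push_cast
    have := hθ.one.neg
    rwa [neg_sub] at this
  have hu := hθ.du1_val H
  have hmem : ((IsTheta.du1 θ H : N) : Ω) ∈ A₂ :=
    (hA _).2 ⟨intN_le_CN ⟨(IsTheta.du1 θ H : N).2, hθ.du1_int H⟩,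
      (mem_fixO F N _ _).2 ⟨_, rfl, fun σ hσ => hθ.du1_fix H hσ⟩⟩
  have hinv : ((IsTheta.du1 θ H : N) : Ω)⁻¹ ∈ A₂ := by
    obtain ⟨h2, h3⟩ := (hA _).1 hmem
    exact (hA _).2 ⟨CN_inv h2 hu.1 hu.2, inv_mem (S := IntermediateField k Ω) h3⟩
  refine ⟨_, hr, hv, -((IsTheta.du1 θ H : N) : Ω)⁻¹, A₂.neg_mem hinv, ?_⟩
  rw [hf1]
  push_cast
  field_simp [hu.1]
  ring

/-- `m_{A₂} = m_C A₂`. -/
theorem A2_gen (h : Ctx0 k v nn) [FiniteDimensional F N] (hR : NRing v F R)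
    (H : Subgroup (N ≃ₐ[F] N)) {A₂ : Subalgebra k Ω}
    (hA : ∀ f, f ∈ A₂ ↔ f ∈ CN v R N ∧ f ∈ fixO F N (DP v R N hR.frac.1 ⊓ H)) {a : Ω}
    (ha : a ∈ A₂) (hv : VPos v a) :
    ∃ r₁ ∈ ICl v R (fixO F N H), ∃ r₂ ∈ ICl v R (fixO F N H), VPos v r₁ ∧ VPos v r₂ ∧
      ∃ b₁ ∈ A₂, ∃ b₂ ∈ A₂, a = r₁ * b₁ + r₂ * b₂ := by
  obtain ⟨θ, hθ⟩ := exists_isTheta (N := N) h hR
  have hA2 := A2_eq h hR hθ H hA
  obtain ⟨r, hr, hr0, b, hb, hrb⟩ := sub_one_H hR hθ H hA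
  have hCA : ∀ f ∈ ICl v R (fixO F N H), f ∈ A₂ := by
    intro f hf
    rw [mem_ICl_fixO h hR H] at hf
    refine (hA f).2 ⟨hf.1, ?_⟩
    obtain ⟨n, rfl, hn⟩ := (mem_fixO F N _ f).1 hf.2
    exact (mem_fixO F N _ _).2 ⟨n, rfl, fun σ hσ => hn σ hσ.2⟩
  have hnn : ∀ f ∈ A₂, v.Ge 0 f := fun f hf => CN_nonneg hR.nonneg f ((hA f).1 hf).1
  have hAi : ∀ f ∈ A₂, f ≠ 0 → v f = 0 → f⁻¹ ∈ A₂ := by
    intro f hf h0 h1
    obtain ⟨h2, h3⟩ := (hA f).1 hf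
    exact (hA _).2 ⟨CN_inv h2 h0 h1, inv_mem (S := IntermediateField k Ω) h3⟩
  -- every element of `C[θ]` is an element of `C` plus a multiple of `θ - 1`
  have key : ∀ s ∈ Algebra.adjoin k ((ICl v R (fixO F N H) : Set Ω) ∪ {(θ : Ω)}),
      ∃ c ∈ ICl v R (fixO F N H), ∃ z ∈ A₂, s = c + ((θ : Ω) - 1) * z := by
    intro s hs
    induction hs using Algebra.adjoin_induction with
    | mem s hs =>
      rcases hs with hs | hs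
      · exact ⟨s, hs, 0, zero_mem _, by ring⟩
      · rw [Set.mem_singleton_iff] at hs
        exact ⟨1, one_mem _, 1, one_mem _, by rw [hs]; ring⟩
    | algebraMap c => exact ⟨_, Subalgebra.algebraMap_mem _ c, 0, zero_mem _, by ring⟩
    | add x y _ _ hx hy =>
      obtain ⟨c, hc, z, hz, rfl⟩ := hx
      obtain ⟨c', hc', z', hz', rfl⟩ := hy
      exact ⟨c + c', add_mem hc hc', z + z', add_mem hz hz', by ring⟩
    | mul x y hx' hy' hx hy =>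
      obtain ⟨c, hc, z, hz, rfl⟩ := hx
      obtain ⟨c', hc', z', hz', rfl⟩ := hy
      have hθ1 : (θ : Ω) - 1 ∈ A₂ := by
        rw [hrb]; exact mul_mem (hCA r hr) hb
      exact ⟨c * c', mul_mem hc hc', c * z' + c' * z + ((θ : Ω) - 1) * (z * z'),
        add_mem (add_mem (mul_mem (hCA c hc) hz') (mul_mem (hCA c' hc') hz))
          (mul_mem hθ1 (mul_mem hz hz')), by ring⟩
  have ha' := ha
  rw [hA2] at ha'
  obtain ⟨s, hs, t, ht, ht0, ht1, rfl⟩ := ha'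
  obtain ⟨c, hc, z, hz, hsc⟩ := key s hs
  have htA : t ∈ A₂ := by rw [hA2]; exact le_locv _ ht
  have hti : t⁻¹ ∈ A₂ := hAi t htA ht0 ht1
  have hsv : VPos v s := by
    have : s = s / t * t := by rw [div_mul_cancel₀ _ ht0]
    rw [this]
    exact VPos.mul hv (hnn t htA)
  have hcv : VPos v c := by
    have : c = s - ((θ : Ω) - 1) * z := by rw [hsc]; ring
    rw [this]
    exact hsv.sub (VPos.mul hθ.one (hnn z hz))
  refine ⟨c, hc, r, hr, hcv, hr0, t⁻¹, hti, b * z * t⁻¹, mul_mem (mul_mem hb hz) hti, ?_⟩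
  rw [hsc, hrb]
  field_simp

/-- Row (3.4b): descent of a frame ring from `A₂ = CN ⊓ K₂` to `C = ICl v R E`, `E = N^H`. -/
theorem descendY (h : Ctx0 k v nn) [FiniteDimensional F N] (hR : NRing v F R)
    (H : Subgroup (N ≃ₐ[F] N)) {Γ : AddSubgroup 𝕂} {χ₂ : 𝕂 → Ω} {y₂ : Fin D → Ω}
    {A₂ : Subalgebra k Ω} (hP : PF v Γ χ₂ y₂ A₂)
    (hA₂ : ∀ f, f ∈ A₂ ↔ f ∈ CN v R N ∧ f ∈ fixO F N (DP v R N hR.frac.1 ⊓ H))
    (M : Set Ω) (hMF : ∀ m ∈ M, m ∈ F)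
    (hM0 : ∀ m ∈ M, m ≠ 0) (hM1 : 1 ∈ M) (hMm : ∀ m ∈ M, ∀ m' ∈ M, m * m' ∈ M)
    (hMi : ∀ m ∈ M, m⁻¹ ∈ M)
    (w : OVal 𝕂 Ω) (hwχ : ∀ γ ∈ Γ, w (χ₂ γ) = γ) (hwA : ∀ f ∈ A₂, w.Ge 0 f)
    (hcut : ∀ b ∈ fixO F N (DP v R N hR.frac.1 ⊓ H), (∃ m ∈ M, m * b ∈ A₂) →
      w.Ge 0 b → b ∈ A₂)
    (hden : ∀ γ ∈ Γ, ∃ m ∈ M, m * χ₂ γ ∈ A₂)
    (htor : ∀ γ ∈ Γ, ∃ e : ℕ, 0 < e ∧ ∃ m ∈ M, (e : 𝕂) * γ = w m) :
    ∃ (χ : 𝕂 → Ω) (y : Fin D → Ω) (hyA : ∀ i, y i ∈ A₂), PF v Γ χ y (ICl v R (fixO F N H)) ∧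
      (∀ γ ∈ Γ, χ γ ∈ fixO F N H) ∧ (∀ γ ∈ Γ, χ γ / χ₂ γ ∈ A₂ ∧ χ₂ γ / χ γ ∈ A₂) ∧
      (∀ i, (⟨y₂ i, hP.y_mem i⟩ - ⟨y i, hyA i⟩ : A₂) ∈ mI v A₂ hP.nonneg ^ 2) ∧
      Gen v Γ χ₂ y A₂ := by
  classical
  obtain ⟨θ, hθ⟩ := exists_isTheta (N := N) h hR
  set D₀ := DP v R N hR.frac.1 with hD₀
  set E := fixO F N H with hE
  set K₂ := fixO F N (D₀ ⊓ H) with hK₂
  have hEK : ∀ f ∈ E, f ∈ K₂ := by
    intro f hf
    obtain ⟨n, rfl, hn⟩ := (mem_fixO F N H f).1 hf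
    exact (mem_fixO F N _ _).2 ⟨n, rfl, fun σ hσ => hn σ hσ.2⟩
  have hKE : ∀ f ∈ F, f ∈ E := fun f hf =>
    (mem_fixO F N H f).2 ⟨algebraMap F N ⟨f, hf⟩, rfl, fun σ _ => σ.commutes _⟩
  have hRA : ∀ f ∈ R, f ∈ A₂ := fun f hf =>
    (hA₂ f).2 ⟨intN_le_CN (le_intN hR.frac.1 hf), hEK f (hKE f (hR.frac.1 f hf))⟩
  have hχ₂K : ∀ γ ∈ Γ, χ₂ γ ∈ K₂ := by
    intro γ hγ
    rcases le_total 0 γ with h0 | h0
    · exact ((hA₂ _).1 (hP.χ_mem γ hγ h0)).2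
    · have h1 := K₂.inv_mem ((hA₂ _).1 (hP.χ_mem (-γ) (Γ.neg_mem hγ) (by linarith))).2
      rwa [hP.χ_neg hγ, inv_inv] at h1
  have hwR : ∀ f ∈ R, w.Ge 0 f := fun f hf => hwA f (hRA f hf)
  have hwRD : ∀ f ∈ RD v R N hR.frac.1, w.Ge 0 f := by
    intro f hf
    refine hwA f ((hA₂ f).2 ⟨hf.1, ?_⟩)
    obtain ⟨n, rfl, hn⟩ := (mem_fixO F N _ f).1 hf.2
    exact (mem_fixO F N _ _).2 ⟨n, rfl, fun σ hσ => hn σ hσ.1⟩
  have hds := ds_instM hR H hθ hwR hwRD M hMF hM0 hM1 hMm hMi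
  -- the condition `h1`
  have hh1 : ∀ b : N, (∀ σ ∈ D₀, σ ∈ H → σ b = b) →
      (∃ g ∈ {n : N | (n : Ω) ∈ M}, g * b ∈ Lc (intS R N) (resN v N)) →
      (resN w N).Ge 0 b → b ∈ Lc (intS R N) (resN v N) := by
    rintro b hb ⟨g, hg, hgb⟩ hwb
    rw [mem_Lc] at hgb ⊢
    rw [resN_ge] at hwb
    have hbK : (b : Ω) ∈ K₂ := (mem_fixO F N _ _).2 ⟨b, rfl, fun σ hσ => hb σ hσ.1 hσ.2⟩
    rw [MulMemClass.coe_mul] at hgb
    have h1 : (g : Ω) * (b : Ω) ∈ A₂ :=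
      (hA₂ _).2 ⟨hgb, K₂.mul_mem (hEK _ (hKE _ (hMF _ hg))) hbK⟩
    exact ((hA₂ _).1 (hcut _ hbK ⟨g, hg, h1⟩ hwb)).1
  -- the units
  set U := unitsOf v A₂ hP.loc with hU
  have hunit : ∀ γ (hγ : γ ∈ Γ), ∃ c ∈ unitsIn E,
      c / Units.mk0 (χ₂ γ) (hP.χ_ne γ hγ) ∈ U := by
    intro γ hγ
    obtain ⟨a, ha, haf⟩ := (mem_fixO F N _ _).1 (hχ₂K γ hγ)
    have ha0 : a ≠ 0 := by
      rw [← coe_ne, ha]; exact hP.χ_ne γ hγ
    obtain ⟨e, he, m, hm, hem⟩ := htor γ hγ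
    obtain ⟨g, hg, hga⟩ := hden γ hγ
    obtain ⟨g', hg', hga'⟩ := hden (-γ) (Γ.neg_mem hγ)
    obtain ⟨c, hc0, hcf, -, hca, hcv⟩ := hds.descend hh1 ha0 (fun σ h1 h2 => haf σ ⟨h1, h2⟩)
      ⟨algebraMap F N ⟨g, hMF g hg⟩, hg, by
        rw [mem_Lc, MulMemClass.coe_mul, ha]; exact ((hA₂ _).1 hga).1⟩
      ⟨algebraMap F N ⟨g', hMF g' hg'⟩, hg', by
        rw [mem_Lc, MulMemClass.coe_mul]
        push_cast
        rw [ha, ← hP.χ_neg hγ]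
        exact ((hA₂ _).1 hga').1⟩
      ⟨e, he, algebraMap F N ⟨m, hMF m hm⟩, hm, by
        change (e : 𝕂) * w (a : Ω) = w m
        rw [ha, hwχ γ hγ, hem]⟩
    have hcΩ : (c : Ω) ≠ 0 := coe_ne.2 hc0
    have hcE : (c : Ω) ∈ E := (mem_fixO F N _ _).2 ⟨c, rfl, hcf⟩
    rw [mem_Lc] at hca
    have h1 : ((c / a : N) : Ω) = (c : Ω) / χ₂ γ := by
      push_cast
      rw [ha]
    have h2 : (c : Ω) / χ₂ γ ∈ A₂ := by
      rw [← h1]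
      refine (hA₂ _).2 ⟨hca, ?_⟩
      rw [h1]
      exact div_mem (S := IntermediateField k Ω) (hEK _ hcE) (hχ₂K γ hγ)
    refine ⟨Units.mk0 (c : Ω) hcΩ, hcE, ?_, ?_⟩
    · rw [Units.val_div_eq_div_val]
      exact h2
    · rw [Units.val_div_eq_div_val]
      change v ((c : Ω) / χ₂ γ) = 0
      rw [← h1]
      exact hcv
  obtain ⟨ψ, hψ0, hψa, hψ⟩ := ALL61C.exists_chi Γ hP.fg χ₂ hP.χ_ne hP.χ_add (unitsIn E) U hunit
  have hψE : ∀ γ ∈ Γ, ψ γ ∈ E := fun γ hγ => (hψ γ hγ (hψ0 γ hγ)).1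
  have hψU : ∀ γ ∈ Γ, ψ γ / χ₂ γ ∈ A₂ ∧ v (ψ γ / χ₂ γ) = 0 := by
    intro γ hγ
    obtain ⟨h1, h2⟩ := (hψ γ hγ (hψ0 γ hγ)).2
    rw [Units.val_div_eq_div_val] at h1 h2
    exact ⟨h1, h2⟩
  have hψv : ∀ γ ∈ Γ, v (ψ γ) = γ := by
    intro γ hγ
    obtain ⟨-, h3⟩ := hψU γ hγ
    rw [v.map_div (hψ0 γ hγ) (hP.χ_ne γ hγ), hP.χ_val γ hγ] at h3
    linarith
  have hψU' : ∀ γ ∈ Γ, χ₂ γ / ψ γ ∈ A₂ := by
    intro γ hγ
    obtain ⟨h1, h3⟩ := hψU γ hγ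
    have h4 := hP.loc _ h1 (div_ne_zero (hψ0 γ hγ) (hP.χ_ne γ hγ)) h3
    rwa [inv_div] at h4
  -- the ring
  have hCm : ∀ x, x ∈ ICl v R E ↔ x ∈ A₂ ∧ x ∈ E := by
    intro x
    rw [hE, mem_ICl_fixO h hR H, hA₂]
    exact ⟨fun h1 => ⟨⟨h1.1, hEK _ h1.2⟩, h1.2⟩, fun h1 => ⟨h1.1.1, h1.2⟩⟩
  have hC0 : ∀ s ∈ ICl v R E, v.Ge 0 s := fun s hs => hP.nonneg s ((hCm s).1 hs).1
  have hCl : ∀ s ∈ ICl v R E, s ≠ 0 → v s = 0 → s⁻¹ ∈ ICl v R E := fun s hs h1 h2 =>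
    (hCm _).2 ⟨hP.loc s ((hCm s).1 hs).1 h1 h2, E.inv_mem ((hCm s).1 hs).2⟩
  have hψm : ∀ γ ∈ Γ, 0 ≤ γ → ψ γ ∈ ICl v R E := by
    intro γ hγ h0
    refine (hCm _).2 ⟨?_, hψE γ hγ⟩
    have h1 := A₂.mul_mem (hψU γ hγ).1 (hP.χ_mem γ hγ h0)
    rwa [div_mul_cancel₀ _ (hP.χ_ne γ hγ)] at h1
  -- the parameters
  have hpar : ∀ i, ∃ z ∈ ICl v R E, z ≠ 0 ∧ VPos v z ∧ ∃ hz : z ∈ A₂,
      (⟨y₂ i, hP.y_mem i⟩ - ⟨z, hz⟩ : A₂) ∈ mI v A₂ hP.nonneg ^ 2 := by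
    intro i
    obtain ⟨r₁, hr₁, r₂, hr₂, hv₁, hv₂, b₁, hb₁, b₂, hb₂, he⟩ := A2_gen h hR H hA₂ (hP.y_mem i)
      (fun _ => hP.y_pos i)
    obtain ⟨c₁, hc₁⟩ := Ctx0.residue h (hP.nonneg _ hb₁)
    obtain ⟨c₂, hc₂⟩ := Ctx0.residue h (hP.nonneg _ hb₂)
    have hz₀ : algebraMap k Ω c₁ * r₁ + algebraMap k Ω c₂ * r₂ ∈ ICl v R E :=
      add_mem (mul_mem (Subalgebra.algebraMap_mem _ _) hr₁)
        (mul_mem (Subalgebra.algebraMap_mem _ _) hr₂)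
    have hr₁A := ((hCm _).1 hr₁).1
    have hr₂A := ((hCm _).1 hr₂).1
    have hd : ∀ (z : Ω) (hz : z ∈ A₂), z = algebraMap k Ω c₁ * r₁ + algebraMap k Ω c₂ * r₂ →
        (⟨y₂ i, hP.y_mem i⟩ - ⟨z, hz⟩ : A₂) ∈ mI v A₂ hP.nonneg ^ 2 := by
      intro z hz hze
      have h1 : (⟨y₂ i, hP.y_mem i⟩ - ⟨z, hz⟩ : A₂) =
          ⟨r₁, hr₁A⟩ * ⟨b₁ - algebraMap k Ω c₁, A₂.sub_mem hb₁ (A₂.algebraMap_mem c₁)⟩ +
          ⟨r₂, hr₂A⟩ * ⟨b₂ - algebraMap k Ω c₂, A₂.sub_mem hb₂ (A₂.algebraMap_mem c₂)⟩ := by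
        apply Subtype.ext
        change y₂ i - z = r₁ * (b₁ - algebraMap k Ω c₁) + r₂ * (b₂ - algebraMap k Ω c₂)
        rw [hze, he]
        ring
      rw [h1, pow_two]
      exact Ideal.add_mem _ (Ideal.mul_mem_mul hv₁ hc₁) (Ideal.mul_mem_mul hv₂ hc₂)
    by_cases h0 : algebraMap k Ω c₁ * r₁ + algebraMap k Ω c₂ * r₂ = 0
    · -- one of the `r` is nonzero
      obtain ⟨r, hr, hr0, hrv⟩ : ∃ r ∈ ICl v R E, r ≠ 0 ∧ VPos v r := by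
        by_cases h1 : r₁ = 0
        · by_cases h2 : r₂ = 0
          · exfalso
            apply hP.y_ne i
            rw [he, h1, h2, zero_mul, zero_mul, add_zero]
          · exact ⟨r₂, hr₂, h2, hv₂⟩
        · exact ⟨r₁, hr₁, h1, hv₁⟩
      have hrA := ((hCm _).1 hr).1
      refine ⟨r * r, mul_mem hr hr, mul_ne_zero hr0 hr0, VPos.mul hrv hrv.ge,
        A₂.mul_mem hrA hrA, ?_⟩
      have h1 := hd 0 A₂.zero_mem h0.symm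
      have h2 : (⟨y₂ i, hP.y_mem i⟩ - ⟨r * r, A₂.mul_mem hrA hrA⟩ : A₂) =
          (⟨y₂ i, hP.y_mem i⟩ - ⟨0, A₂.zero_mem⟩ : A₂) - ⟨r, hrA⟩ * ⟨r, hrA⟩ := by
        apply Subtype.ext
        change y₂ i - r * r = y₂ i - 0 - r * r
        rw [sub_zero]
      rw [h2]
      refine Ideal.sub_mem _ h1 ?_
      rw [pow_two]
      exact Ideal.mul_mem_mul hrv hrv
    · refine ⟨_, hz₀, h0, ?_, ((hCm _).1 hz₀).1, hd _ _ rfl⟩
      exact (VPos.mul' (Pool.Agent.ALLZO.Ctx0.ge h c₁) hv₁).add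
        (VPos.mul' (Pool.Agent.ALLZO.Ctx0.ge h c₂) hv₂)
  choose y hyC hy0 hyv hyA hysq using hpar
  have hgen := hP.gen_of_sq y hyA hysq
  -- the polynomial of `θ`
  set f : Polynomial Ω := (fH θ H).map (algebraMap N Ω) with hf
  have hfm : f.Monic := (fH_monic θ H).map _
  have hfd : f.natDegree = (IsTheta.orb θ H).card := by
    rw [hf, (fH_monic θ H).natDegree_map, fH_natDegree]
  have hfc : ∀ i, f.coeff i ∈ ICl v R E := by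
    intro i
    rw [hf, Polynomial.coeff_map]
    exact le_locv _ (coeff_mem_icl (fH_PI hθ H) (fun σ hσ => fH_map θ H hσ) i)
  have hf0 : f.eval (θ : Ω) = 0 := by
    rw [hf, show (θ : Ω) = algebraMap N Ω θ from rfl, eval_map_algebraMap, aeval_algebraMap_apply,
      aeval_def, eval₂_eq_eval_map, Algebra.algebraMap_self, Polynomial.map_id, fH_eval, map_zero]
  have hind : ∀ c : ℕ → Ω, (∀ i, c i ∈ E) →
      ∑ i ∈ Finset.range f.natDegree, c i * (θ : Ω) ^ i = 0 → ∀ i < f.natDegree, c i = 0 := by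
    intro c hc h0
    rw [hfd] at h0 ⊢
    exact fH_ind θ H c hc h0
  have hθA : (θ : Ω) ∈ A₂ := (hA₂ _).2 ⟨intN_le_CN ⟨θ.2, hθ.int⟩,
    (mem_fixO F N _ _).2 ⟨θ, rfl, fun σ hσ => hθ.fix σ hσ.1⟩⟩
  have hA := A2_eq h hR hθ H hA₂
  refine ⟨ψ, y, hyA, ⟨hP.fg, hψ0, hψa, hψv, hy0, fun i => hyv i (hy0 i), hC0, hCl, hψm, hyC,
    ?_, ?_⟩, hψE, fun γ hγ => ⟨(hψU γ hγ).1, hψU' γ hγ⟩, hysq, hgen⟩
  · exact descend_fgen E A₂ (ICl v R E) hP.nonneg hP.loc hCm θ hθA f hfm hfc hf0 hind hA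
      Γ hP.fg χ₂ ψ hP.χ_ne hP.χ_val hP.χ_add hψ0 hψv hψa hψE hψU' hP.fgen
  · intro a ha hav
    obtain ⟨γ, hγ, b₀, hb₀, hγb, b, hb, hab⟩ := hgen a ((hCm a).1 ha).1 hav
    have h1 : χ₂ γ = ψ γ * (χ₂ γ / ψ γ) := by
      rw [mul_div_cancel₀ _ (hψ0 γ hγ)]
    rcases hγb with hγ0 | hb00
    · obtain ⟨c, hcC, hac⟩ := descend_gen E A₂ (ICl v R E) hP.nonneg hP.loc hCm θ hθA f hfm
        hfc hf0 hind hA (κ := Option (Fin D)) (fun l => Option.elim l (ψ γ) y) (by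
          intro l
          rcases l with _ | i
          · exact hψE γ hγ
          · exact ((hCm _).1 (hyC i)).2) ha
        (fun l => Option.elim l ((χ₂ γ / ψ γ) * b₀) b) (by
          intro l
          rcases l with _ | i
          · exact A₂.mul_mem (hψU' γ hγ) hb₀
          · exact hb i) (by
          rw [Fintype.sum_option]
          simp only [Option.elim_none, Option.elim_some]
          rw [hab, ← mul_assoc, ← h1])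
      rw [Fintype.sum_option] at hac
      simp only [Option.elim_none, Option.elim_some] at hac
      exact ⟨γ, hγ, c none, hcC none, Or.inl hγ0, fun i => c (some i), fun i => hcC (some i),
        hac⟩
    · obtain ⟨c, hcC, hac⟩ := descend_gen E A₂ (ICl v R E) hP.nonneg hP.loc hCm θ hθA f hfm
        hfc hf0 hind hA (κ := Fin D) y (fun i => ((hCm _).1 (hyC i)).2) ha b hb (by
          rw [hab, hb00, mul_zero, zero_add])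
      exact ⟨0, Γ.zero_mem, 0, zero_mem _, Or.inr rfl, c, hcC, by
        rw [mul_zero, zero_add]; exact hac⟩

end Descent

end Pool.Agent.TGB61
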