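import Pool.Agent.Lib.TGB_h61.DescFr
import Pool.Agent.Lib.TGB_h34.Row32

/-!
# TANK G, track L: row 3.4b for limit frames, given a content valuation
-/

set_option autoImplicit false

namespace Pool.Agent.TGB61

open Pool.Agent.TAO (OVal VPos val_add_vpos Ctx0)
open Pool.Agent.ALLO (locv icl ICl)
open Pool.Agent.LU1 (FracIs fixO mem_fixO)
open Pool.Agent.ALLZO
open Pool.Agent.TGBh34 (IsFr MM0 isFr_of_LF LF_of_isFr)
open Pool.Agent.TGL (LF Mo)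

universe u w

variable {k Ω : Type u} [Field k] [Field Ω] [Algebra k Ω] {𝕂 : Type w} [Field 𝕂] [LinearOrder 𝕂]
  [IsStrictOrderedRing 𝕂] {v : OVal 𝕂 Ω} {nn : ℕ} {r D : ℕ}

/-- `w` is a content valuation of the limit frame `B`. -/
structure IsW (B : LF k v r D) (w : OVal 𝕂 Ω) : Prop where
  χ : ∀ γ ∈ B.Γ, w (B.χ γ) = γ
  ge : ∀ f ∈ B.R, w.Ge 0 f
  cut : ∀ b, ∀ γ ∈ B.Γ, B.χ γ * b ∈ B.R → w.Ge 0 b → b ∈ B.R

/-! ### Units and monomials of a limit frame -/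

theorem LF.χ_zero (B : LF k v r D) : B.χ 0 = 1 := by
  have h := B.χ_add 0 B.Γ.zero_mem 0 B.Γ.zero_mem
  rw [add_zero] at h
  exact (mul_right_cancel₀ (B.χ_ne 0 B.Γ.zero_mem) (by rw [one_mul]; exact h)).symm

theorem LF.χ_neg (B : LF k v r D) {γ : 𝕂} (hγ : γ ∈ B.Γ) : B.χ (-γ) = (B.χ γ)⁻¹ := by
  have h1 := B.χ_add γ hγ (-γ) (B.Γ.neg_mem hγ)
  rw [add_neg_cancel, LF.χ_zero] at h1
  exact (inv_eq_of_mul_eq_one_right h1.symm).symm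

theorem LF.un_inv {B : LF k v r D} {f : Ω} (hf : B.Un f) : B.Un f⁻¹ :=
  ⟨B.loc f hf.1 hf.2.1 hf.2.2, inv_ne_zero hf.2.1, by rw [v.map_inv hf.2.1, hf.2.2, neg_zero]⟩

theorem LF.un_mul {B : LF k v r D} {f g : Ω} (hf : B.Un f) (hg : B.Un g) : B.Un (f * g) :=
  ⟨B.R.mul_mem hf.1 hg.1, mul_ne_zero hf.2.1 hg.2.1, by
    rw [v.map_mul hf.2.1 hg.2.1, hf.2.2, hg.2.2, add_zero]⟩

theorem LF.un_one (B : LF k v r D) : B.Un 1 :=
  ⟨B.R.one_mem, one_ne_zero, v.map_one⟩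

theorem LF.un_of_inv {B : LF k v r D} {f : Ω} (hf : f ∈ B.R) (h0 : f ≠ 0) (h : f⁻¹ ∈ B.R) :
    B.Un f := by
  refine ⟨hf, h0, le_antisymm ?_ (B.nonneg f hf h0)⟩
  have h1 := B.nonneg _ h (inv_ne_zero h0)
  rw [v.map_inv h0] at h1
  linarith

theorem LF.mono_one (B : LF k v r D) : B.Mono 1 :=
  ⟨one_ne_zero, by rw [v.map_one]; exact B.Γ.zero_mem, by
    rw [v.map_one, LF.χ_zero, div_one]; exact LF.un_one B⟩

theorem LF.mono_mul {B : LF k v r D} {f g : Ω} (hf : B.Mono f) (hg : B.Mono g) :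
    B.Mono (f * g) := by
  have e : v (f * g) = v f + v g := v.map_mul hf.1 hg.1
  refine ⟨mul_ne_zero hf.1 hg.1, by rw [e]; exact B.Γ.add_mem hf.2.1 hg.2.1, ?_⟩
  rw [e, B.χ_add _ hf.2.1 _ hg.2.1, mul_div_mul_comm]
  exact LF.un_mul hf.2.2 hg.2.2

theorem LF.mono_inv {B : LF k v r D} {f : Ω} (hf : B.Mono f) : B.Mono f⁻¹ := by
  have e : v f⁻¹ = - v f := v.map_inv hf.1
  refine ⟨inv_ne_zero hf.1, by rw [e]; exact B.Γ.neg_mem hf.2.1, ?_⟩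
  have h1 := LF.un_inv hf.2.2
  rwa [inv_div, ← inv_div_inv, ← LF.χ_neg B hf.2.1, ← e] at h1

theorem LF.val_mono {B : LF k v r D} {m : Ω} {γ : 𝕂} (hγ : γ ∈ B.Γ) (hm : m ≠ 0)
    (hu : B.Un (m / B.χ γ)) : v m = γ := by
  have e1 := hu.2.2
  rw [v.map_div hm (B.χ_ne _ hγ), B.χ_val _ hγ] at e1
  linarith

theorem LF.mono_of_un {B : LF k v r D} {m : Ω} {γ : 𝕂} (hγ : γ ∈ B.Γ)
    (hu : B.Un (m / B.χ γ)) : B.Mono m := by
  have h0 : m ≠ 0 := fun h => hu.2.1 (by rw [h, zero_div])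
  have e := LF.val_mono hγ h0 hu
  exact ⟨h0, by rw [e]; exact hγ, by rw [e]; exact hu⟩

theorem LF.nsmul_mem (B : LF k v r D) {γ : 𝕂} (hγ : γ ∈ B.Γ) (e : ℕ) : (e : 𝕂) * γ ∈ B.Γ := by
  rw [← nsmul_eq_mul]
  exact B.Γ.nsmul_mem hγ e

theorem IsW.un {B : LF k v r D} {w : OVal 𝕂 Ω} (hw : IsW B w) {f : Ω} (hf : B.Un f) :
    w f = 0 := by
  have h1 := hw.ge f hf.1 hf.2.1
  have h2 := hw.ge _ (LF.un_inv hf).1 (inv_ne_zero hf.2.1)
  rw [w.map_inv hf.2.1] at h2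
  linarith

/-- The case `r = 0`: the trivial valuation is a content valuation. -/
theorem exists_isW_zero (B : LF k v 0 D) : ∃ w : OVal 𝕂 Ω, IsW B w := by
  have h0 : ∀ γ ∈ B.Γ, γ = 0 := by
    obtain ⟨X, -, -, h3⟩ := B.rk
    intro γ hγ
    have h4 := h3 γ hγ
    rw [Set.range_eq_empty, Submodule.span_empty, Submodule.mem_bot] at h4
    exact h4
  refine ⟨⟨fun _ => 0, fun _ _ _ _ => (add_zero 0).symm, fun _ _ _ _ _ => by simp⟩,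
    fun γ hγ => (h0 γ hγ).symm, fun f hf hf0 => le_rfl, fun b γ hγ h1 h2 => ?_⟩
  rwa [h0 γ hγ, LF.χ_zero, one_mul] at h1

variable {R : Subalgebra k Ω} {F : IntermediateField k Ω} {N : IntermediateField F Ω}

theorem mem_base (h : Ctx0 k v nn) [FiniteDimensional F N] [IsGalois F N] (hR : NRing v F R)
    {a : Ω} (ha : a ∈ CN v R N) (haF : a ∈ F) : a ∈ R := by
  have h1 : a ∈ fixO F N (⊤ : Subgroup (N ≃ₐ[F] N)) :=
    (mem_fixO F N _ _).2 ⟨algebraMap F N ⟨a, haF⟩, rfl, fun σ _ => σ.commutes _⟩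
  have h2 := (mem_ICl_fixO h hR (⊤ : Subgroup (N ≃ₐ[F] N)) (a := a)).2 (mem_AH.2 ⟨ha, h1⟩)
  have e4 : fixO F N (⊤ : Subgroup (N ≃ₐ[F] N)) = F := by
    ext a
    rw [mem_fixO]
    constructor
    · rintro ⟨n, rfl, hn⟩
      obtain ⟨f, hf⟩ := (IsGalois.mem_bot_iff_fixed (F := F) (E := N) n).2
        fun σ => hn σ (Subgroup.mem_top σ)
      rw [← hf]
      exact f.2
    · intro ha
      exact ⟨algebraMap F N ⟨a, ha⟩, rfl, fun σ _ => σ.commutes _⟩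
  rw [e4] at h2
  exact (mem_ICl_base hR).1 h2

/-- ROW 3.4b for limit frames, given a content valuation: descent of a frame ring from the
decomposition field to `F`. -/
theorem descend_of_w (h : Ctx0 k v nn) [FiniteDimensional F N] [IsGalois F N] (hR : NRing v F R)
    (A : LF k v r D) (hA : A.R = RD v R N hR.frac.1) {w : OVal 𝕂 Ω} (hw : IsW A w)
    (hM : ∀ γ ∈ A.Γ, ∃ e : ℕ, 0 < e ∧ ∃ m ∈ F, A.Un (m / A.χ (e * γ))) :
    ∃ C : LF k v r D, C.R = R ∧ C.Γ = A.Γ ∧ (∀ γ ∈ A.Γ, A.Un (C.χ γ / A.χ γ)) ∧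
      (∀ γ ∈ A.Γ, C.χ γ ∈ F) ∧ (∀ x ∈ F, A.Mono x → C.Mono x) ∧
      ∀ f ∈ A.R, VPos v f → MM0 A.Γ A.χ C.y A.R f := by
  obtain ⟨χ, y, h2, h3, h4, h5⟩ := descendTop h hR (Γ := A.Γ) (χ₂ := A.χ) (y₂ := A.y)
    (by rw [← hA]; exact isFr_of_LF A) {x | x ∈ F ∧ A.Mono x}
    (fun m hm => hm.1) (fun m hm => hm.2.1) ⟨F.one_mem, LF.mono_one A⟩
    (fun m hm m' hm' => ⟨F.mul_mem hm.1 hm'.1, LF.mono_mul hm.2 hm'.2⟩)
    (fun m hm => ⟨F.inv_mem hm.1, LF.mono_inv hm.2⟩)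
    w hw.χ (by rw [← hA]; exact hw.ge)
    (by
      rintro b hb ⟨m, ⟨hmF, h6⟩, hmb⟩ hwb
      rw [← hA] at hmb ⊢
      refine hw.cut b _ h6.2.1 ?_ hwb
      have h7 : A.χ (v m) * b = (m / A.χ (v m))⁻¹ * (m * b) := by
        have := A.χ_ne _ h6.2.1
        have := h6.1
        field_simp
      rw [h7]
      exact A.R.mul_mem (LF.un_inv h6.2.2).1 hmb)
    (by
      intro γ hγ
      rw [← hA]
      rcases le_total 0 γ with h6 | h6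
      · exact ⟨1, ⟨F.one_mem, LF.mono_one A⟩, by rw [one_mul]; exact A.χ_mem γ hγ h6⟩
      · obtain ⟨e, he, m, hm, hu⟩ := hM (-γ) (A.Γ.neg_mem hγ)
        have h8 : ∀ c : ℕ, (c : 𝕂) * -γ ∈ A.Γ := LF.nsmul_mem A (A.Γ.neg_mem hγ)
        refine ⟨m, ⟨hm, LF.mono_of_un (h8 e) hu⟩, ?_⟩
        have h9 : (e : 𝕂) * -γ = ((e - 1 : ℕ) : 𝕂) * -γ + -γ := by
          rw [Nat.cast_sub he]
          push_cast
          ring
        have h10 : m * A.χ γ = m / A.χ ((e : 𝕂) * -γ) * A.χ (((e - 1 : ℕ) : 𝕂) * -γ) := by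
          have e1 : A.χ ((e : 𝕂) * -γ) = A.χ (((e - 1 : ℕ) : 𝕂) * -γ) * (A.χ γ)⁻¹ := by
            rw [h9, A.χ_add _ (h8 _) _ (A.Γ.neg_mem hγ), LF.χ_neg A hγ]
          have e2 := A.χ_ne _ (h8 (e - 1))
          have e3 := A.χ_ne _ hγ
          rw [e1, div_mul_eq_mul_div, eq_div_iff (mul_ne_zero e2 (inv_ne_zero e3))]
          field_simp
        rw [h10]
        exact A.R.mul_mem hu.1 (A.χ_mem _ (h8 _) (mul_nonneg (Nat.cast_nonneg _) (by linarith))))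
    (by
      intro γ hγ
      obtain ⟨e, he, m, hm, hu⟩ := hM γ hγ
      have h8 := LF.nsmul_mem A hγ e
      have h10 := LF.mono_of_un h8 hu
      refine ⟨e, he, m, ⟨hm, h10⟩, ?_⟩
      have h9 := hw.un hu
      rw [w.map_div h10.1 (A.χ_ne _ h8), hw.χ _ h8] at h9
      linarith)
  rw [← hA] at h4 h5
  have h6 : ∀ γ ∈ A.Γ, A.Un (χ γ / A.χ γ) := fun γ hγ => by
    have e1 := h2.mon.ne γ hγ
    have e2 := A.χ_ne γ hγ
    refine LF.un_of_inv (h4 γ hγ).1 (div_ne_zero e1 e2) ?_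
    rw [inv_div]
    exact (h4 γ hγ).2
  -- units of `A` in `F` are units of `R`
  have h7 : ∀ x : Ω, x ∈ F → A.Un x → x ∈ R := fun x hx hu => by
    have e1 := hu.1
    rw [hA] at e1
    exact mem_base h hR e1.1 hx
  have h9 : ∀ x ∈ F, A.Mono x → (LF_of_isFr h2 A.rk).Mono x := by
    intro x hx hm
    have e1 := h2.mon.ne _ hm.2.1
    have e2 := A.χ_ne _ hm.2.1
    refine ⟨hm.1, hm.2.1, h7 _ (F.div_mem hx (h3 _ hm.2.1)) ?_, div_ne_zero hm.1 e1, ?_⟩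
    · change A.Un (x / χ (v x))
      have e3 : x / χ (v x) = x / A.χ (v x) * (χ (v x) / A.χ (v x))⁻¹ := by
        field_simp
      rw [e3]
      exact LF.un_mul hm.2.2 (LF.un_inv (h6 _ hm.2.1))
    · change v (x / χ (v x)) = 0
      rw [v.map_div hm.1 e1, h2.mon.val _ hm.2.1, sub_self]
  exact ⟨LF_of_isFr h2 A.rk, rfl, rfl, h6, h3, h9, h5⟩

end Pool.Agent.TGB61
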